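import Pool.Agent.X99.LP.C

/-!
# Families with several integral parameters: dilates of fast sequences
-/

set_option autoImplicit false

open Finset Filter Topology MeasureTheory

namespace Pool.Agent.X99.LP

open scoped ENNReal NNReal

/-- the box of the `α` with `|k j - α j X ^ d j| ≤ L` for all `j` -/
theorem volume_box {s : ℕ} (d : Fin s → ℕ) (X : ℝ) (hX : 0 < X) (L : ℝ) (hL : 0 ≤ L) (k : Fin s → ℤ) :
    volume {α : Fin s → ℝ | ∀ j, |(k j : ℝ) - α j * X ^ d j| ≤ L} ≤ ENNReal.ofReal ((2 * L) ^ s / ∏ j, X ^ d j) := by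
  have h1 : {α : Fin s → ℝ | ∀ j, |(k j : ℝ) - α j * X ^ d j| ≤ L} ⊆
      Set.pi Set.univ (fun j => Set.Icc ((k j - L) / X ^ d j) ((k j + L) / X ^ d j)) := by
    intro α hα j _
    have hXd : 0 < X ^ d j := pow_pos hX _
    obtain ⟨h2, h3⟩ := abs_le.1 (hα j)
    rw [Set.mem_Icc]
    constructor
    · rw [div_le_iff₀ hXd]; linarith
    · rw [le_div_iff₀ hXd]; linarith
  refine (measure_mono h1).trans (le_of_eq ?_)
  rw [MeasureTheory.volume_pi_pi]
  have h2 : ∀ j, volume (Set.Icc (((k j : ℤ) - L) / X ^ d j) (((k j : ℤ) + L) / X ^ d j)) = ENNReal.ofReal (2 * L / X ^ d j) := by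
    intro j
    rw [Real.volume_Icc]
    congr 1
    ring
  rw [Finset.prod_congr rfl fun j _ => h2 j, ← ENNReal.ofReal_prod_of_nonneg (fun j _ => by positivity),
    Finset.prod_div_distrib, Finset.prod_const, Finset.card_univ, Fintype.card_fin]

/-- families with several parameters: few exceptions in the boxes `|k j| ≤ B X ^ d j` -/
theorem ae_box {s : ℕ} (d : Fin s → ℕ) (hd : ∀ j, 1 ≤ d j) (Xs : ℕ → ℕ) (hX : Fast (fun n => Real.log (Xs n)))
    (P : ℕ → (Fin s → ℤ) → Prop) (A U : ℕ)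
    (hP : ∀ V : ℕ, ∃ X₀ : ℕ, ∀ X : ℕ, X₀ ≤ X → ∃ Bad : Finset (Fin s → ℤ),
      (Bad.card : ℝ) ≤ (∏ j, (X : ℝ) ^ d j) / Real.log X ^ V ∧
      ∀ k : Fin s → ℤ, (∀ j, |k j| ≤ (((A + 1) * X ^ d j : ℕ) : ℤ)) → k ∉ Bad → P X k) :
    ∀ᵐ α : Fin s → ℝ, (∀ j, |α j| ≤ A) → ∃ n₀ : ℕ, ∀ n : ℕ, n₀ ≤ n → ∀ k : Fin s → ℤ,
      (∀ j, |(k j : ℝ) - α j * (Xs n : ℝ) ^ d j| ≤ Real.log (Xs n) ^ U) → P (Xs n) k := by
  classical
  have ht := fast_tendsto hX
  obtain ⟨u, hu⟩ := fast_summable hX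
  obtain ⟨X₀, hX₀⟩ := hP (s * U + u)
  have hXs : Tendsto (fun n => (Xs n : ℝ)) atTop atTop := by
    refine tendsto_atTop_mono' _ ?_ ht
    filter_upwards with n
    exact Real.log_le_self (Nat.cast_nonneg _)
  have hXn : Tendsto Xs atTop atTop := tendsto_natCast_atTop_iff.1 hXs
  have hsmall : ∀ᶠ n in atTop, Real.log (Xs n) ^ U ≤ (Xs n : ℝ) := by
    have h1 : (fun x : ℝ => Real.log x ^ U) =o[atTop] (fun x : ℝ => x) := by
      exact Real.isLittleO_pow_log_id_atTop (n := U)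
    filter_upwards [(h1.comp_tendsto hXs).bound one_pos, ht.eventually_ge_atTop 0] with n hn hn0
    simp only [Function.comp_apply, one_mul] at hn
    rw [Real.norm_of_nonneg (pow_nonneg hn0 _), Real.norm_of_nonneg (Nat.cast_nonneg _)] at hn
    exact hn
  obtain ⟨n₀, hn₀⟩ := eventually_atTop.1 ((hXn.eventually_ge_atTop (max X₀ 3)).and (hsmall.and (ht.eventually_ge_atTop 1)))
  have hch : ∀ n : ℕ, ∃ Bad : Finset (Fin s → ℤ), n₀ ≤ n →
      (Bad.card : ℝ) ≤ (∏ j, (Xs n : ℝ) ^ d j) / Real.log (Xs n) ^ (s * U + u) ∧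
      ∀ k : Fin s → ℤ, (∀ j, |k j| ≤ (((A + 1) * Xs n ^ d j : ℕ) : ℤ)) → k ∉ Bad → P (Xs n) k := by
    intro n
    by_cases hn : n₀ ≤ n
    · obtain ⟨Bad, h⟩ := hX₀ (Xs n) ((le_max_left _ _).trans (hn₀ n hn).1)
      exact ⟨Bad, fun _ => h⟩
    · exact ⟨∅, fun h => absurd h hn⟩
  choose Bad hBad using hch
  set S : ℕ → Set (Fin s → ℝ) := fun n => ⋃ k ∈ Bad n, {α : Fin s → ℝ | ∀ j, |(k j : ℝ) - α j * (Xs n : ℝ) ^ d j| ≤ Real.log (Xs n) ^ U} with hS
  have hbc := bc' (μ := (volume : Measure (Fin s → ℝ))) (S := S) (hu.mul_left ((2 : ℝ) ^ s)) n₀ (fun n hn => ?_)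
  · filter_upwards [hbc] with α hα hαA
    obtain ⟨n₁, h1⟩ := hα
    refine ⟨max n₀ n₁, fun n hn k hk => ?_⟩
    have hn0 := (le_max_left _ _).trans hn
    have hn1 := (le_max_right _ _).trans hn
    obtain ⟨c1, c2, c3⟩ := hn₀ n hn0
    refine (hBad n hn0).2 k (fun j => ?_) (fun hkB => h1 n hn1 ?_)
    · have hX1 : (1 : ℝ) ≤ Xs n := by
        have : 1 ≤ Xs n := by
          have := (le_max_right X₀ 3).trans c1
          omega
        exact_mod_cast this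
      have h2 : (Xs n : ℝ) ≤ (Xs n : ℝ) ^ d j := le_self_pow₀ hX1 (by have := hd j; omega)
      have h3 : |(k j : ℝ)| ≤ (A + 1) * (Xs n : ℝ) ^ d j := by
        calc |(k j : ℝ)| = |((k j : ℝ) - α j * (Xs n : ℝ) ^ d j) + α j * (Xs n : ℝ) ^ d j| := by ring_nf
          _ ≤ |(k j : ℝ) - α j * (Xs n : ℝ) ^ d j| + |α j * (Xs n : ℝ) ^ d j| := abs_add_le _ _
          _ ≤ (Xs n : ℝ) ^ d j + A * (Xs n : ℝ) ^ d j := by
              apply add_le_add ((hk j).trans (c2.trans h2))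
              rw [abs_mul, abs_of_nonneg (by positivity : (0 : ℝ) ≤ (Xs n : ℝ) ^ d j)]
              exact mul_le_mul_of_nonneg_right (hαA j) (by positivity)
          _ = _ := by ring
      have h4 : ((|k j| : ℤ) : ℝ) ≤ ((((A + 1) * Xs n ^ d j : ℕ) : ℤ) : ℝ) := by
        push_cast
        exact h3
      exact_mod_cast h4
    · exact Set.mem_biUnion (x := k) hkB hk
  · obtain ⟨c1, c2, c3⟩ := hn₀ n hn
    have hX3 : (3 : ℝ) ≤ Xs n := by exact_mod_cast (le_max_right X₀ 3).trans c1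
    have hX0 : (0 : ℝ) < Xs n := by linarith
    have hl0 : 0 < Real.log (Xs n) := by linarith
    have hpr : (0 : ℝ) < ∏ j, (Xs n : ℝ) ^ d j := Finset.prod_pos fun j _ => by positivity
    calc volume (S n) ≤ ∑ k ∈ Bad n, volume {α : Fin s → ℝ | ∀ j, |(k j : ℝ) - α j * (Xs n : ℝ) ^ d j| ≤ Real.log (Xs n) ^ U} :=
          measure_biUnion_finset_le _ _
      _ ≤ ∑ _k ∈ Bad n, ENNReal.ofReal ((2 * Real.log (Xs n) ^ U) ^ s / ∏ j, (Xs n : ℝ) ^ d j) :=
          Finset.sum_le_sum fun k _ => volume_box d _ hX0 _ (by positivity) k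
      _ = ENNReal.ofReal ((Bad n).card * ((2 * Real.log (Xs n) ^ U) ^ s / ∏ j, (Xs n : ℝ) ^ d j)) := by
          rw [Finset.sum_const, nsmul_eq_mul, ENNReal.ofReal_mul (Nat.cast_nonneg _), ENNReal.ofReal_natCast]
      _ ≤ ENNReal.ofReal ((2 : ℝ) ^ s * Real.log (Xs n) ^ (-(u : ℝ))) := by
          apply ENNReal.ofReal_le_ofReal
          calc ((Bad n).card : ℝ) * ((2 * Real.log (Xs n) ^ U) ^ s / ∏ j, (Xs n : ℝ) ^ d j)
              ≤ ((∏ j, (Xs n : ℝ) ^ d j) / Real.log (Xs n) ^ (s * U + u)) * ((2 * Real.log (Xs n) ^ U) ^ s / ∏ j, (Xs n : ℝ) ^ d j) :=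
                mul_le_mul_of_nonneg_right (hBad n hn).1 (by positivity)
            _ = _ := by
                rw [Real.rpow_neg hl0.le, Real.rpow_natCast, mul_pow, ← pow_mul, mul_comm U s, pow_add]
                field_simp

end Pool.Agent.X99.LP
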