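import Pool.Agent.X283.DA.LogB


/-!
# Sets of integers with `O(X / (log X) ^ U)` elements for every `U`: dilates and powers of fast sequences, denominators
-/

set_option autoImplicit false

open Finset Filter Topology MeasureTheory

namespace Pool.Agent.X99.LP

open scoped ENNReal NNReal
open Pool.Agent.X283.DA (LogSparse ae_pow_log ae_dil_log sum_recip)

open Classical in
/-- at most `X / (log X) ^ U` exceptions in `[-X, X]` for every `U` and all large `X` -/
def Few (P : ℤ → Prop) : Prop :=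
  ∀ U : ℕ, ∃ X₀ : ℕ, ∀ X : ℕ, X₀ ≤ X →
    (((Icc (-(X : ℤ)) X).filter (fun k => ¬ P k)).card : ℝ) ≤ X / Real.log X ^ U

/-- the natural numbers `n` with `¬ P (s n)` -/
def Bad (P : ℤ → Prop) (s : ℤ) : Set ℕ := {n : ℕ | ¬ P (s * n)}

theorem logSparse {P : ℤ → Prop} (hP : Few P) {s : ℤ} (hs : s = 1 ∨ s = -1) (U : ℕ) :
    LogSparse (Bad P s) U := by
  classical
  obtain ⟨X₀, h⟩ := hP U
  -- for small X use the trivial bound
  set C : ℝ := 1 + (X₀ + 1) * (Real.log X₀) ^ U with hC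
  refine ⟨C, ?_, fun X hX => ?_⟩
  · have : (0 : ℝ) ≤ (Real.log X₀) ^ U := pow_nonneg (Real.log_natCast_nonneg X₀) U
    positivity
  have hX3 : (3 : ℝ) ≤ X := by exact_mod_cast hX
  have hlog : 0 < Real.log X := Real.log_pos (by linarith)
  have hlp : 0 < (Real.log X) ^ U := pow_pos hlog U
  rw [Real.rpow_neg hlog.le, Real.rpow_natCast]
  rcases le_or_gt X₀ X with hXX | hXX
  · have h1 := h X hXX
    have h2 : ({t : ℕ | t ∈ Bad P s ∧ t ≤ X}.ncard : ℝ) ≤
        (((Icc (-(X : ℤ)) X).filter (fun k => ¬ P k)).card : ℝ) := by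
      have h3 : {t : ℕ | t ∈ Bad P s ∧ t ≤ X}.ncard ≤
          ((Icc (-(X : ℤ)) X).filter (fun k => ¬ P k) : Set ℤ).ncard := by
        refine Set.ncard_le_ncard_of_injOn (fun t : ℕ => s * (t : ℤ)) ?_ ?_ (Finset.finite_toSet _)
        · rintro t ⟨ht, htX⟩
          rw [Finset.mem_coe, Finset.mem_filter, Finset.mem_Icc]
          refine ⟨?_, ht⟩
          have h4 : (t : ℤ) ≤ X := by exact_mod_cast htX
          rcases hs with rfl | rfl
          · constructor <;> simp only [one_mul] <;> omega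
          · constructor <;> simp only [neg_mul, one_mul] <;> omega
        · intro x _ y _ hxy
          have h5 : s * (x : ℤ) = s * (y : ℤ) := hxy
          rcases hs with rfl | rfl
          · simpa using h5
          · simpa using h5
      rw [Set.ncard_coe_finset] at h3
      exact_mod_cast h3
    refine h2.trans (h1.trans ?_)
    rw [div_eq_mul_inv]
    apply mul_le_mul_of_nonneg_right _ (inv_nonneg.2 hlp.le)
    have h6 : (1 : ℝ) ≤ C := by
      have : (0 : ℝ) ≤ (Real.log X₀) ^ U := pow_nonneg (Real.log_natCast_nonneg X₀) U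
      rw [hC]
      have : (0 : ℝ) ≤ ((X₀ : ℝ) + 1) * (Real.log X₀) ^ U := by positivity
      linarith
    nlinarith
  · have h2 : ({t : ℕ | t ∈ Bad P s ∧ t ≤ X}.ncard : ℝ) ≤ X + 1 := by
      have h3 : {t : ℕ | t ∈ Bad P s ∧ t ≤ X}.ncard ≤ ((Finset.Iic X : Finset ℕ) : Set ℕ).ncard := by
        refine Set.ncard_le_ncard ?_ (Finset.finite_toSet _)
        rintro t ⟨-, ht⟩
        simpa using ht
      rw [Set.ncard_coe_finset, Nat.card_Iic] at h3
      exact_mod_cast h3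
    refine h2.trans ?_
    have h4 : (Real.log X) ^ U ≤ (Real.log X₀) ^ U := by
      apply pow_le_pow_left₀ hlog.le
      exact Real.log_le_log (by linarith) (by exact_mod_cast hXX.le)
    have h5 : (X : ℝ) + 1 ≤ X₀ + 1 := by
      have : (X : ℝ) ≤ X₀ := by exact_mod_cast hXX.le
      linarith
    rw [← div_eq_mul_inv, le_div_iff₀ hlp]
    have h6 : (0 : ℝ) ≤ (Real.log X₀) ^ U := pow_nonneg (Real.log_natCast_nonneg X₀) U
    calc ((X : ℝ) + 1) * Real.log X ^ U ≤ (X₀ + 1) * Real.log X₀ ^ U :=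
          mul_le_mul h5 h4 hlp.le (by positivity)
      _ ≤ C := by rw [hC]; linarith
      _ ≤ C * X := by
          have : (0 : ℝ) ≤ C := by rw [hC]; positivity
          nlinarith

/-- all integers `k` with `|k - w n| ≤ (l n) ^ U`, `n` large, have the property `P`, for every `U` -/
def Near (w l : ℕ → ℝ) (P : ℤ → Prop) : Prop :=
  ∀ U : ℕ, ∃ n₀ : ℕ, ∀ n : ℕ, n₀ ≤ n → ∀ k : ℤ, |(k : ℝ) - w n| ≤ l n ^ U → P k

/-- `κ n` is at least a positive power of `n` -/
def Fast (κ : ℕ → ℝ) : Prop := ∃ δ : ℝ, 0 < δ ∧ ∀ᶠ n : ℕ in atTop, (n : ℝ) ^ δ ≤ κ n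

theorem fast_tendsto {κ : ℕ → ℝ} (h : Fast κ) : Tendsto κ atTop atTop := by
  obtain ⟨δ, hδ, h⟩ := h
  exact tendsto_atTop_mono' _ h ((tendsto_rpow_atTop hδ).comp tendsto_natCast_atTop_atTop)

theorem fast_summable {κ : ℕ → ℝ} (h : Fast κ) : ∃ u : ℕ, Summable (fun n => κ n ^ (-(u : ℝ))) := by
  obtain ⟨δ, hδ, h⟩ := h
  obtain ⟨u, hu⟩ := exists_nat_gt (1 / δ)
  have hu0 : (0 : ℝ) < u := (by positivity : (0 : ℝ) < 1 / δ).trans hu
  have hu1 : 1 < δ * u := by
    rw [div_lt_iff₀ hδ] at hu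
    linarith
  refine ⟨u, ?_⟩
  have h1 : Summable (fun n : ℕ => (n : ℝ) ^ (-(δ * u))) := Real.summable_nat_rpow.2 (by linarith)
  refine Summable.of_norm_bounded_eventually_nat h1 ?_
  filter_upwards [h, eventually_ge_atTop 1] with n hn hn1
  have hn0 : (0 : ℝ) < n := by exact_mod_cast hn1
  have h2 : (0 : ℝ) < (n : ℝ) ^ δ := Real.rpow_pos_of_pos hn0 δ
  have h3 : 0 < κ n := h2.trans_le hn
  rw [Real.norm_of_nonneg (Real.rpow_nonneg h3.le _), neg_mul_eq_mul_neg, Real.rpow_mul hn0.le]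
  exact Real.rpow_le_rpow_of_nonpos h2 hn (by linarith)

/-- from the natural numbers to the integers -/
theorem near_of {P : ℤ → Prop} {w κ : ℕ → ℝ} (s : ℤ) (hs : s = 1 ∨ s = -1)
    (hpos : ∀ U : ℕ, ∀ᶠ n : ℕ in atTop, κ n ^ U < w n)
    (h : ∀ U : ℕ, ∃ n₀ : ℕ, ∀ n : ℕ, n₀ ≤ n → ∀ A ∈ Bad P s, κ n ^ U < |(A : ℝ) - w n|) :
    Near (fun n => (s : ℝ) * w n) κ P := by
  intro U
  obtain ⟨n₀, h0⟩ := h U
  obtain ⟨n₁, h1⟩ := eventually_atTop.1 (hpos U)
  refine ⟨max n₀ n₁, fun n hn k hk => ?_⟩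
  have hn0 := h0 n ((le_max_left _ _).trans hn)
  have hn1 := h1 n ((le_max_right _ _).trans hn)
  have hss : (s : ℝ) * s = 1 := by
    rcases hs with rfl | rfl <;> norm_num
  have hssz : s * s = 1 := by
    rcases hs with rfl | rfl <;> norm_num
  have habs : |(s : ℝ)| = 1 := by
    rcases hs with rfl | rfl <;> norm_num
  have hk' : |((s * k : ℤ) : ℝ) - w n| ≤ κ n ^ U := by
    have e : ((s * k : ℤ) : ℝ) - w n = (s : ℝ) * ((k : ℝ) - (s : ℝ) * w n) := by
      push_cast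
      rw [mul_sub, ← mul_assoc, hss, one_mul]
    rw [e, abs_mul, habs, one_mul]
    exact hk
  have hk0 : 0 ≤ s * k := by
    obtain ⟨a1, -⟩ := abs_le.1 hk'
    have : (0 : ℝ) < ((s * k : ℤ) : ℝ) := by linarith
    have h2 : 0 < s * k := by exact_mod_cast this
    exact h2.le
  obtain ⟨A, hA⟩ := Int.eq_ofNat_of_zero_le hk0
  by_contra hcon
  have hkA : k = s * (A : ℤ) := by
    have h3 : s * (s * k) = s * (A : ℤ) := congrArg (fun x => s * x) hA
    rw [← mul_assoc, hssz, one_mul] at h3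
    exact h3
  have hbad : A ∈ Bad P s := by
    show ¬ P (s * A)
    rw [← hkA]
    exact hcon
  have h4 := hn0 A hbad
  rw [hA] at hk'
  push_cast at hk'
  linarith

end Pool.Agent.X99.LP
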