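import Pool.Agent.X99.LP.A

/-!
# Dilates and powers
-/

set_option autoImplicit false

open Finset Filter Topology MeasureTheory

namespace Pool.Agent.X99.LP

open scoped ENNReal NNReal
open Pool.Agent.X283.DA (LogSparse ae_pow_log ae_dil_log sum_recip)

theorem ae_all_pos_dil {P : ℤ → Prop} (hP : Few P) {κ : ℕ → ℝ} (hκ : Fast κ) :
    ∀ᵐ α : ℝ, 0 < α → Near (fun n => α * Real.exp (κ n)) κ P ∧ Near (fun n => -(α * Real.exp (κ n))) κ P := by
  obtain ⟨u, hu⟩ := fast_summable hκ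
  have ht := fast_tendsto hκ
  have key : ∀ (m U : ℕ) (b : Bool), ∀ᵐ t : ℝ, t ∈ Set.Icc (1 / ((m : ℝ) + 1)) (m + 1) →
      ∃ n₀ : ℕ, ∀ n : ℕ, n₀ ≤ n → ∀ A ∈ Bad P (if b then 1 else -1), κ n ^ (U : ℝ) < |(A : ℝ) - t * Real.exp (κ n)| := by
    intro m U b
    refine ae_dil_log (b := ((U + u : ℕ) : ℝ)) (by positivity) (logSparse hP (by cases b <;> simp) (U + u)) κ ht
      (by positivity) (u := u) (by push_cast; linarith) hu (by positivity) ?_
    rw [div_le_iff₀ (by positivity)]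
    have : (0 : ℝ) ≤ m := Nat.cast_nonneg m
    nlinarith
  have key' : ∀ᵐ t : ℝ, ∀ (m U : ℕ) (b : Bool), t ∈ Set.Icc (1 / ((m : ℝ) + 1)) (m + 1) →
      ∃ n₀ : ℕ, ∀ n : ℕ, n₀ ≤ n → ∀ A ∈ Bad P (if b then 1 else -1), κ n ^ (U : ℝ) < |(A : ℝ) - t * Real.exp (κ n)| := by
    rw [ae_all_iff]; intro m
    rw [ae_all_iff]; intro U
    rw [ae_all_iff]; intro b
    exact key m U b
  filter_upwards [key'] with α hα hα0
  obtain ⟨m, hm⟩ := exists_nat_ge (max α (1 / α))
  have hmem : α ∈ Set.Icc (1 / ((m : ℝ) + 1)) (m + 1) := by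
    constructor
    · rw [div_le_iff₀ (by positivity)]
      have h1 : 1 / α ≤ m := (le_max_right _ _).trans hm
      rw [div_le_iff₀ hα0] at h1
      nlinarith
    · have h1 : α ≤ m := (le_max_left _ _).trans hm
      linarith
  have hpos : ∀ U : ℕ, ∀ᶠ n : ℕ in atTop, κ n ^ U < α * Real.exp (κ n) := by
    intro U
    have h1 : Tendsto (fun x : ℝ => x ^ U / Real.exp x) atTop (𝓝 0) := by
      simpa [Real.exp_neg, div_eq_mul_inv] using Real.tendsto_pow_mul_exp_neg_atTop_nhds_zero U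
    filter_upwards [(h1.comp ht).eventually (gt_mem_nhds hα0)] with n hn
    have h2 : κ n ^ U / Real.exp (κ n) < α := hn
    rwa [div_lt_iff₀ (Real.exp_pos _)] at h2
  refine ⟨?_, ?_⟩
  · have := near_of (P := P) (w := fun n => α * Real.exp (κ n)) (κ := κ) 1 (Or.inl rfl) hpos (fun U => by
      obtain ⟨n₀, h⟩ := hα m U true hmem
      refine ⟨n₀, fun n hn A hA => ?_⟩
      have := h n hn A hA
      rwa [Real.rpow_natCast] at this)
    simpa using this
  · have := near_of (P := P) (w := fun n => α * Real.exp (κ n)) (κ := κ) (-1) (Or.inr rfl) hpos (fun U => by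
      obtain ⟨n₀, h⟩ := hα m U false hmem
      refine ⟨n₀, fun n hn A hA => ?_⟩
      have := h n hn A (by simpa using hA)
      rwa [Real.rpow_natCast] at this)
    simpa using this

/-- dilates of fast sequences -/
theorem ae_dilates {ι : Type*} [Countable ι] (P : ι → ℤ → Prop) {κ : ℕ → ℝ} (hκ : Fast κ) :
    ∀ᵐ α : ℝ, ∀ i, Few (P i) → Near (fun n => α * Real.exp (κ n)) κ (P i) := by
  rw [ae_all_iff]
  intro i
  by_cases hP : Few (P i)
  swap
  · exact Filter.Eventually.of_forall fun _ h => absurd h hP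
  have h1 := ae_all_pos_dil hP hκ
  have h2 : ∀ᵐ α : ℝ, 0 < -α → Near (fun n => (-α) * Real.exp (κ n)) κ (P i) ∧
      Near (fun n => -((-α) * Real.exp (κ n))) κ (P i) :=
    (Measure.measurePreserving_neg (volume : Measure ℝ)).quasiMeasurePreserving.ae h1
  have h3 : ∀ᵐ α : ℝ, α ≠ 0 := by
    have : (volume : Measure ℝ) {0} = 0 := by simp
    rw [ae_iff]
    simpa using this
  filter_upwards [h1, h2, h3] with α a1 a2 a3 _
  rcases lt_or_gt_of_ne a3 with h | h
  · have := (a2 (by linarith)).2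
    simpa using this
  · exact (a1 h).1

/-- powers -/
theorem ae_powers {ι : Type*} [Countable ι] (P : ι → ℤ → Prop) {κ : ℕ → ℝ} (hκ : Fast κ) :
    ∀ᵐ t : ℝ, 1 < t → ∀ i, Few (P i) → Near (fun n => t ^ κ n) κ (P i) ∧ Near (fun n => -(t ^ κ n)) κ (P i) := by
  obtain ⟨u, hu⟩ := fast_summable hκ
  have ht := fast_tendsto hκ
  have key : ∀ (i : ι) (m U : ℕ) (b : Bool), ∀ᵐ t : ℝ, Few (P i) → t ∈ Set.Icc (1 + 1 / ((m : ℝ) + 1)) (m + 2) →
      ∃ n₀ : ℕ, ∀ n : ℕ, n₀ ≤ n → ∀ A ∈ Bad (P i) (if b then 1 else -1), κ n ^ (U : ℝ) < |(A : ℝ) - t ^ κ n| := by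
    intro i m U b
    by_cases hP : Few (P i)
    swap
    · exact Filter.Eventually.of_forall fun _ h => absurd h hP
    have := ae_pow_log (b := ((U + u : ℕ) : ℝ)) (by positivity) (logSparse hP (s := if b then 1 else -1)
      (by cases b <;> simp) (U + u)) κ (θ := U) (u := u) ht
      (by positivity) (by push_cast; linarith) hu (lo := 1 + 1 / ((m : ℝ) + 1)) (hi := m + 2)
      (by have : 0 < 1 / ((m : ℝ) + 1) := by positivity
          linarith) (by
        have h1 : 1 / ((m : ℝ) + 1) ≤ 1 := by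
          rw [div_le_iff₀ (by positivity)]
          have : (0 : ℝ) ≤ m := Nat.cast_nonneg m
          linarith
        have : (0 : ℝ) ≤ m := Nat.cast_nonneg m
        linarith)
    filter_upwards [this] with t h _
    exact h
  have key' : ∀ᵐ t : ℝ, ∀ (i : ι) (m U : ℕ) (b : Bool), Few (P i) → t ∈ Set.Icc (1 + 1 / ((m : ℝ) + 1)) (m + 2) →
      ∃ n₀ : ℕ, ∀ n : ℕ, n₀ ≤ n → ∀ A ∈ Bad (P i) (if b then 1 else -1), κ n ^ (U : ℝ) < |(A : ℝ) - t ^ κ n| := by
    rw [ae_all_iff]; intro i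
    rw [ae_all_iff]; intro m
    rw [ae_all_iff]; intro U
    rw [ae_all_iff]; intro b
    exact key i m U b
  filter_upwards [key'] with t hα ht1 i hP
  have ht0 : 0 < t := by linarith
  obtain ⟨m, hm⟩ := exists_nat_ge (max t (1 / (t - 1)))
  have hmem : t ∈ Set.Icc (1 + 1 / ((m : ℝ) + 1)) (m + 2) := by
    constructor
    · have h1 : 1 / (t - 1) ≤ m := (le_max_right _ _).trans hm
      rw [div_le_iff₀ (by linarith)] at h1
      have : 1 / ((m : ℝ) + 1) ≤ t - 1 := by
        rw [div_le_iff₀ (by positivity)]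
        nlinarith
      linarith
    · have h1 : t ≤ m := (le_max_left _ _).trans hm
      linarith
  have hlt : 0 < Real.log t := Real.log_pos ht1
  have hpos : ∀ U : ℕ, ∀ᶠ n : ℕ in atTop, κ n ^ U < t ^ κ n := by
    intro U
    have h1 : Tendsto (fun x : ℝ => x ^ (U : ℝ) * Real.exp (-Real.log t * x)) atTop (𝓝 0) :=
      tendsto_rpow_mul_exp_neg_mul_atTop_nhds_zero _ _ hlt
    filter_upwards [(h1.comp ht).eventually (gt_mem_nhds one_pos)] with n hn
    have h2 : κ n ^ (U : ℝ) * Real.exp (-Real.log t * κ n) < 1 := hn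
    rw [Real.rpow_natCast] at h2
    rw [Real.rpow_def_of_pos ht0]
    have h6 : Real.exp (Real.log t * κ n) * Real.exp (-Real.log t * κ n) = 1 := by
      rw [← Real.exp_add]
      simp
    have h7 : 0 < Real.exp (Real.log t * κ n) := Real.exp_pos _
    calc κ n ^ U = (κ n ^ U * Real.exp (-Real.log t * κ n)) * Real.exp (Real.log t * κ n) := by
          rw [mul_assoc, mul_comm (Real.exp (-Real.log t * κ n)), h6, mul_one]
      _ < 1 * Real.exp (Real.log t * κ n) := mul_lt_mul_of_pos_right h2 h7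
      _ = _ := one_mul _
  refine ⟨?_, ?_⟩
  · have := near_of (P := P i) (w := fun n => t ^ κ n) (κ := κ) 1 (Or.inl rfl) hpos (fun U => by
      obtain ⟨n₀, h⟩ := hα i m U true hP hmem
      refine ⟨n₀, fun n hn A hA => ?_⟩
      have := h n hn A hA
      rwa [Real.rpow_natCast] at this)
    simpa using this
  · have := near_of (P := P i) (w := fun n => t ^ κ n) (κ := κ) (-1) (Or.inr rfl) hpos (fun U => by
      obtain ⟨n₀, h⟩ := hα i m U false hP hmem
      refine ⟨n₀, fun n hn A hA => ?_⟩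
      have := h n hn A (by simpa using hA)
      rwa [Real.rpow_natCast] at this)
    simpa using this

end Pool.Agent.X99.LP
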