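import Pool.Agent.X99.LP.B

/-!
# Denominators
-/

set_option autoImplicit false

open Finset Filter Topology MeasureTheory

namespace Pool.Agent.X99.LP

open scoped ENNReal NNReal
open Pool.Agent.X283.DA (LogSparse ae_pow_log ae_dil_log sum_recip)

/-- the integers `p` which can be close to `q x - y` for `|x| ≤ N` -/
noncomputable def rng (N y : ℝ) (q : ℕ) : Finset ℤ :=
  Finset.Icc ⌊-(q * N) - y - 1⌋ ⌈q * N - y + 1⌉

theorem card_rng (N y : ℝ) (hN : 0 ≤ N) (q : ℕ) (hq : 1 ≤ q) :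
    ((rng N y q).card : ℝ) ≤ (2 * N + 5) * q := by
  have hq' : (1 : ℝ) ≤ q := by exact_mod_cast hq
  rw [rng, Int.card_Icc]
  have h1 := Int.ceil_lt_add_one (q * N - y + 1)
  have h2 := Int.sub_one_lt_floor (-(q * N) - y - 1)
  have hqN : 0 ≤ (q : ℝ) * N := by positivity
  have h3 : (0 : ℤ) ≤ ⌈q * N - y + 1⌉ + 1 - ⌊-(q * N) - y - 1⌋ := by
    have h4 : ⌊-(q * N) - y - 1⌋ ≤ ⌈q * N - y + 1⌉ := by
      have h5 : ((⌊-(q * N) - y - 1⌋ : ℤ) : ℝ) ≤ (⌈q * N - y + 1⌉ : ℤ) := by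
        have h6 := Int.floor_le (-(q * N) - y - 1)
        have h7 := Int.le_ceil (q * N - y + 1)
        linarith
      exact_mod_cast h5
    omega
  have h4 : (((⌈q * N - y + 1⌉ + 1 - ⌊-(q * N) - y - 1⌋).toNat : ℕ) : ℝ) =
      ((⌈q * N - y + 1⌉ : ℤ) : ℝ) + 1 - (⌊-(q * N) - y - 1⌋ : ℤ) := by
    have : (((⌈q * N - y + 1⌉ + 1 - ⌊-(q * N) - y - 1⌋).toNat : ℤ) : ℝ) =
      ((⌈q * N - y + 1⌉ : ℤ) : ℝ) + 1 - (⌊-(q * N) - y - 1⌋ : ℤ) := by
      rw [Int.toNat_of_nonneg h3]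
      push_cast
      ring
    rw [← this]
    norm_cast
  rw [h4]
  nlinarith

theorem mem_rng {N y x r : ℝ} {q : ℕ} {p : ℤ} (hx : |x| ≤ N) (hr : r ≤ 1)
    (h : |(q : ℝ) * x - p - y| ≤ r) : p ∈ rng N y q := by
  rw [rng, Finset.mem_Icc]
  have hq : (0 : ℝ) ≤ q := Nat.cast_nonneg q
  obtain ⟨h1, h2⟩ := abs_le.1 h
  obtain ⟨h3, h4⟩ := abs_le.1 hx
  have h5 : (q : ℝ) * x ≤ q * N := mul_le_mul_of_nonneg_left h4 hq
  have h6 : -((q : ℝ) * N) ≤ q * x := by nlinarith
  constructor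
  · have : ((⌊-(q * N) - y - 1⌋ : ℤ) : ℝ) ≤ p := by
      have := Int.floor_le (-(q * N) - y - 1)
      linarith
    exact_mod_cast this
  · have : ((p : ℤ) : ℝ) ≤ (⌈q * N - y + 1⌉ : ℤ) := by
      have := Int.le_ceil (q * N - y + 1)
      linarith
    exact_mod_cast this


/-- the `x` with `|x| ≤ N` such that `q x - y` is within `r` of an integer -/
def near (N y r : ℝ) (q : ℕ) : Set ℝ :=
  {x | |x| ≤ N ∧ ∃ p : ℤ, |(q : ℝ) * x - p - y| ≤ r}

theorem near_subset {N y r : ℝ} (hr : r ≤ 1) {q : ℕ} (hq : 1 ≤ q) :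
    near N y r q ⊆ ⋃ p ∈ rng N y q, Set.Icc ((p + y) / q - r / q) ((p + y) / q + r / q) := by
  rintro x ⟨hx, p, hp⟩
  have hq' : (1 : ℝ) ≤ q := by exact_mod_cast hq
  have hq0 : (0 : ℝ) < q := by linarith
  refine Set.mem_biUnion (mem_rng hx hr hp) ?_
  obtain ⟨h1, h2⟩ := abs_le.1 hp
  rw [Set.mem_Icc]
  constructor
  · rw [← sub_div, div_le_iff₀ hq0]
    linarith
  · rw [← add_div, le_div_iff₀ hq0]
    linarith

theorem volume_near {N y r : ℝ} (hN : 0 ≤ N) (hr0 : 0 ≤ r) (hr : r ≤ 1) {q : ℕ} (hq : 1 ≤ q) :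
    volume (near N y r q) ≤ ENNReal.ofReal ((4 * N + 10) * r) := by
  have hq' : (1 : ℝ) ≤ q := by exact_mod_cast hq
  have hq0 : (0 : ℝ) < q := by linarith
  calc volume (near N y r q)
      ≤ volume (⋃ p ∈ rng N y q, Set.Icc ((p + y) / q - r / q) ((p + y) / q + r / q)) :=
        measure_mono (near_subset hr hq)
    _ ≤ ∑ p ∈ rng N y q, volume (Set.Icc ((p + y) / q - r / q) ((p + y) / q + r / q)) :=
        measure_biUnion_finset_le _ _
    _ = ∑ _p ∈ rng N y q, ENNReal.ofReal (2 * (r / q)) := by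
        refine Finset.sum_congr rfl fun p _ => ?_
        rw [Real.volume_Icc]
        congr 1
        ring
    _ = ENNReal.ofReal ((rng N y q).card * (2 * (r / q))) := by
        rw [Finset.sum_const, nsmul_eq_mul, ENNReal.ofReal_mul (Nat.cast_nonneg _),
          ENNReal.ofReal_natCast]
    _ ≤ ENNReal.ofReal ((4 * N + 10) * r) := by
        apply ENNReal.ofReal_le_ofReal
        calc ((rng N y q).card : ℝ) * (2 * (r / q))
            ≤ ((2 * N + 5) * q) * (2 * (r / q)) :=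
              mul_le_mul_of_nonneg_right (card_rng N y hN q hq) (by positivity)
          _ = _ := by
              field_simp
              ring

/-- Borel-Cantelli -/
theorem bc' {X : Type*} [MeasurableSpace X] {μ : Measure X} {S : ℕ → Set X} {f : ℕ → ℝ} (hf : Summable f) (n₀ : ℕ)
    (h : ∀ n : ℕ, n₀ ≤ n → μ (S n) ≤ ENNReal.ofReal (f n)) :
    ∀ᵐ x ∂μ, ∃ n₁ : ℕ, ∀ n : ℕ, n₁ ≤ n → x ∉ S n := by
  have hf' : Summable (fun n => f (n + n₀)) := (summable_nat_add_iff n₀).2 hf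
  have hne : ∑' n, μ (S (n + n₀)) ≠ ∞ :=
    ne_top_of_le_ne_top hf'.tsum_ofReal_ne_top (ENNReal.tsum_le_tsum fun n => h (n + n₀) (by omega))
  have h0 := measure_limsup_atTop_eq_zero hne
  have h1 : ∀ᵐ x ∂μ, x ∉ limsup (fun n => S (n + n₀)) atTop := by
    rw [ae_iff]
    simpa using h0
  filter_upwards [h1] with x hx
  rw [limsup_eq_iInf_iSup_of_nat] at hx
  simp only [Set.iInf_eq_iInter, Set.iSup_eq_iUnion, Set.mem_iInter, Set.mem_iUnion,
    not_forall, not_exists] at hx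
  obtain ⟨n, hn⟩ := hx
  refine ⟨n + n₀, fun m hm => ?_⟩
  have := hn (m - n₀) (by omega)
  rwa [Nat.sub_add_cancel (by omega)] at this

/-- the radius -/
noncomputable def rad (θ : ℝ) (U q : ℕ) : ℝ := (q : ℝ) ^ (-θ) * Real.log q ^ U

theorem rad_nonneg (θ : ℝ) (U q : ℕ) : 0 ≤ rad θ U q :=
  mul_nonneg (Real.rpow_nonneg (Nat.cast_nonneg q) _) (pow_nonneg (Real.log_natCast_nonneg q) _)

theorem rad_small {θ : ℝ} (hθ : 0 < θ) (U : ℕ) : ∀ᶠ q : ℕ in atTop, rad θ U q ≤ 1 := by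
  have h1 : (fun x : ℝ => Real.log x ^ (U : ℝ)) =o[atTop] (fun x : ℝ => x ^ θ) :=
    isLittleO_log_rpow_rpow_atTop (U : ℝ) hθ
  have h2 := (h1.comp_tendsto tendsto_natCast_atTop_atTop).bound one_pos
  filter_upwards [h2, eventually_ge_atTop 1] with q hq hq1
  have hq0 : (0 : ℝ) < q := by exact_mod_cast hq1
  simp only [Function.comp_apply, Real.rpow_natCast, one_mul] at hq
  rw [Real.norm_of_nonneg (pow_nonneg (Real.log_natCast_nonneg q) _),
    Real.norm_of_nonneg (Real.rpow_nonneg hq0.le _)] at hq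
  have h3 : 0 < (q : ℝ) ^ θ := Real.rpow_pos_of_pos hq0 θ
  rw [rad, Real.rpow_neg hq0.le, inv_mul_le_iff₀ h3, mul_one]
  exact hq

open Classical in
/-- the elements of `B` in `[2 ^ n, 2 ^ (n + 1))` -/
noncomputable def blk (B : Set ℕ) (n : ℕ) : Finset ℕ := (Finset.Ico (2 ^ n) (2 ^ (n + 1))).filter (· ∈ B)

theorem ae_den_nat {B : Set ℕ} (hB : ∀ b : ℕ, LogSparse B b) (d : ℕ) (θ y : Fin d → ℝ)
    (hθ : ∀ i, 0 < θ i) (hsum : ∑ i, θ i = 1) (U : ℕ) :
    ∀ᵐ x : Fin d → ℝ, ∃ q₀ : ℕ, ∀ q : ℕ, q₀ ≤ q →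
      (∀ i, ∃ p : ℤ, |(q : ℝ) * x i - p - y i| ≤ rad (θ i) U q) → q ∉ B := by
  classical
  have key : ∀ N : ℕ, ∀ᵐ x : Fin d → ℝ, (∀ i, |x i| ≤ N) → ∃ q₀ : ℕ, ∀ q : ℕ, q₀ ≤ q →
      (∀ i, ∃ p : ℤ, |(q : ℝ) * x i - p - y i| ≤ rad (θ i) U q) → q ∉ B := by
    intro N
    set A : ℕ → Set (Fin d → ℝ) := fun q => Set.pi Set.univ (fun i => near N (y i) (rad (θ i) U q) q) with hA
    set S : ℕ → Set (Fin d → ℝ) := fun n => ⋃ q ∈ blk B n, A q with hS
    obtain ⟨C, hC0, hC⟩ := hB (d * U + 2)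
    have hev : ∀ᶠ q : ℕ in atTop, ∀ i, rad (θ i) U q ≤ 1 :=
      eventually_all.2 fun i => rad_small (hθ i) U
    obtain ⟨Q, hQ⟩ := eventually_atTop.1 hev
    set K : ℝ := (4 * (N : ℝ) + 10) ^ d * (2 * Real.log 2) ^ (d * U) * (2 * C * (Real.log 2 ^ (d * U + 2))⁻¹) with hK
    have hl2 : 0 < Real.log 2 := Real.log_pos (by norm_num)
    have hsm : Summable (fun n : ℕ => K * (1 / (n : ℝ) ^ 2)) :=
      (Real.summable_one_div_nat_pow.2 (by norm_num)).mul_left K
    have hvol1 : ∀ q : ℕ, Q ≤ q → 1 ≤ q → volume (A q) ≤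
        ENNReal.ofReal ((4 * (N : ℝ) + 10) ^ d * (Real.log q ^ (d * U) * (1 / (q : ℝ)))) := by
      intro q hqQ hq1
      have hq0 : (0 : ℝ) < q := by exact_mod_cast hq1
      rw [hA]
      dsimp only
      rw [MeasureTheory.volume_pi_pi]
      calc ∏ i, volume (near N (y i) (rad (θ i) U q) q)
          ≤ ∏ i, ENNReal.ofReal ((4 * (N : ℝ) + 10) * rad (θ i) U q) :=
            Finset.prod_le_prod' fun i _ => volume_near (Nat.cast_nonneg N) (rad_nonneg _ _ _) (hQ q hqQ i) hq1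
        _ = ENNReal.ofReal (∏ i, ((4 * (N : ℝ) + 10) * rad (θ i) U q)) := by
            rw [ENNReal.ofReal_prod_of_nonneg]
            intro i _
            exact mul_nonneg (by positivity) (rad_nonneg _ _ _)
        _ = _ := by
            unfold rad
            rw [Finset.prod_mul_distrib, Finset.prod_mul_distrib, Finset.prod_const, Finset.prod_const,
              Finset.card_univ, Fintype.card_fin, ← Real.rpow_sum_of_pos hq0, Finset.sum_neg_distrib, hsum,
              Real.rpow_neg_one, ← pow_mul, mul_comm U d]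
            congr 1
            ring
    obtain ⟨n₀, hn₀⟩ : ∃ n₀ : ℕ, ∀ n : ℕ, n₀ ≤ n → 2 ≤ n ∧ Q ≤ 2 ^ n := by
      refine ⟨max 2 Q, fun n hn => ⟨(le_max_left _ _).trans hn, ?_⟩⟩
      exact ((le_max_right 2 Q).trans hn).trans (Nat.lt_two_pow_self).le
    have hbc := bc' (μ := (volume : Measure (Fin d → ℝ))) (S := S) hsm n₀ (fun n hn => ?_)
    · filter_upwards [hbc] with x hx hxN
      obtain ⟨n₁, h1⟩ := hx
      refine ⟨2 ^ n₁, fun q hq hcl hqB => ?_⟩
      have hq1 : 1 ≤ q := (Nat.one_le_two_pow).trans hq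
      have hlog : n₁ ≤ Nat.log 2 q := Nat.le_log_of_pow_le (by norm_num) hq
      refine h1 (Nat.log 2 q) hlog ?_
      rw [hS]
      refine Set.mem_biUnion (x := q) ?_ ?_
      · show q ∈ blk B (Nat.log 2 q)
        rw [blk, Finset.mem_filter, Finset.mem_Ico]
        exact ⟨⟨Nat.pow_log_le_self 2 (by omega), Nat.lt_pow_succ_log_self (by norm_num) q⟩, hqB⟩
      · exact fun i _ => ⟨hxN i, hcl i⟩
    · obtain ⟨hn2, hnQ⟩ := hn₀ n hn
      have hnR : (2 : ℝ) ≤ n := by exact_mod_cast hn2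
      have hY : (3 : ℝ) ≤ (2 : ℝ) ^ n := by
        calc (3 : ℝ) ≤ 2 ^ 2 := by norm_num
          _ ≤ 2 ^ n := pow_le_pow_right₀ (by norm_num) hn2
      have hs := sum_recip (P := B) (b := ((d * U + 2 : ℕ) : ℝ)) (C := C) (by positivity) hC0 (fun X hX => by
        have := hC X hX
        push_cast at this ⊢
        exact this) hY 1 (blk B n) (fun q hq => by
          rw [blk, Finset.mem_filter, Finset.mem_Ico] at hq
          refine ⟨hq.2, by exact_mod_cast hq.1.1, ?_⟩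
          have h1 : (q : ℝ) < ((2 ^ (n + 1) : ℕ) : ℝ) := by exact_mod_cast hq.1.2
          push_cast at h1
          rw [pow_succ] at h1
          linarith)
      have hblk : ∀ q ∈ blk B n, Real.log q ≤ 2 * Real.log 2 * n := by
        intro q hq
        rw [blk, Finset.mem_filter, Finset.mem_Ico] at hq
        have hq1 : 1 ≤ q := (Nat.one_le_two_pow).trans hq.1.1
        have h1 : (q : ℝ) ≤ (2 : ℝ) ^ (n + 1) := by exact_mod_cast hq.1.2.le
        have h2 : Real.log q ≤ Real.log ((2 : ℝ) ^ (n + 1)) :=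
          Real.log_le_log (by exact_mod_cast hq1) h1
        rw [Real.log_pow] at h2
        push_cast at h2
        nlinarith
      calc volume (S n) ≤ ∑ q ∈ blk B n, volume (A q) := measure_biUnion_finset_le _ _
        _ ≤ ∑ q ∈ blk B n, ENNReal.ofReal ((4 * (N : ℝ) + 10) ^ d * ((2 * Real.log 2 * n) ^ (d * U) * (1 / (q : ℝ)))) := by
            apply Finset.sum_le_sum
            intro q hq
            have hq' := hq
            rw [blk, Finset.mem_filter, Finset.mem_Ico] at hq'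
            have hq1 : 1 ≤ q := (Nat.one_le_two_pow).trans hq'.1.1
            refine (hvol1 q (hnQ.trans hq'.1.1) hq1).trans (ENNReal.ofReal_le_ofReal ?_)
            apply mul_le_mul_of_nonneg_left _ (by positivity)
            apply mul_le_mul_of_nonneg_right _ (by positivity)
            exact pow_le_pow_left₀ (Real.log_natCast_nonneg q) (hblk q hq) _
        _ = ENNReal.ofReal (∑ q ∈ blk B n, ((4 * (N : ℝ) + 10) ^ d * ((2 * Real.log 2 * n) ^ (d * U) * (1 / (q : ℝ))))) := by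
            rw [ENNReal.ofReal_sum_of_nonneg]
            intro q _
            positivity
        _ ≤ ENNReal.ofReal (K * (1 / (n : ℝ) ^ 2)) := by
            apply ENNReal.ofReal_le_ofReal
            rw [← Finset.mul_sum, ← Finset.mul_sum]
            have h3 : Real.log ((2 : ℝ) ^ n) ^ (-((d * U + 2 : ℕ) : ℝ)) = ((n : ℝ) ^ (d * U + 2))⁻¹ * (Real.log 2 ^ (d * U + 2))⁻¹ := by
              rw [Real.log_pow, Real.rpow_neg (by positivity), Real.rpow_natCast, mul_pow, mul_inv]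
            rw [h3] at hs
            have hn0 : (0 : ℝ) < n := by linarith
            calc (4 * (N : ℝ) + 10) ^ d * ((2 * Real.log 2 * n) ^ (d * U) * ∑ q ∈ blk B n, 1 / (q : ℝ))
                ≤ (4 * (N : ℝ) + 10) ^ d * ((2 * Real.log 2 * n) ^ (d * U) *
                  (((1 : ℕ) : ℝ) * (2 * C * (((n : ℝ) ^ (d * U + 2))⁻¹ * (Real.log 2 ^ (d * U + 2))⁻¹)))) := by
                  apply mul_le_mul_of_nonneg_left _ (by positivity)
                  exact mul_le_mul_of_nonneg_left hs (by positivity)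
              _ = K * (1 / (n : ℝ) ^ 2) := by
                  rw [hK, mul_pow (2 * Real.log 2) (n : ℝ), pow_add (n : ℝ), Nat.cast_one, one_mul]
                  field_simp
  filter_upwards [ae_all_iff.2 key] with x hx
  obtain ⟨N, hN⟩ := exists_nat_ge (∑ i, |x i|)
  exact hx N fun i => (Finset.single_le_sum (fun j _ => abs_nonneg (x j)) (Finset.mem_univ i)).trans hN

/-- all integers `k`, `|k|` large, such that `k x_i` is within `|k| ^ (-θ_i) (log |k|) ^ U` of `y_i` modulo `1` for all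
`i`, have the property `P`, for every `U` -/
def Denominators {d : ℕ} (x y θ : Fin d → ℝ) (P : ℤ → Prop) : Prop :=
  ∀ U : ℕ, ∃ K : ℕ, ∀ k : ℤ, (K : ℤ) ≤ |k| →
    (∀ i, ∃ p : ℤ, |(k : ℝ) * x i - p - y i| ≤ |(k : ℝ)| ^ (-θ i) * Real.log |(k : ℝ)| ^ U) → P k

theorem ae_denominators {ι : Type*} [Countable ι] (P : ι → ℤ → Prop) (d : ℕ) (θ y : Fin d → ℝ)
    (hθ : ∀ i, 0 < θ i) (hsum : ∑ i, θ i = 1) :
    ∀ᵐ x : Fin d → ℝ, ∀ j, Few (P j) → Denominators x y θ (P j) := by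
  have key : ∀ᵐ x : Fin d → ℝ, ∀ (j : ι) (U : ℕ) (s : Bool), Few (P j) → ∃ q₀ : ℕ, ∀ q : ℕ, q₀ ≤ q →
      (∀ i, ∃ p : ℤ, |(q : ℝ) * x i - p - (if s then y i else -y i)| ≤ rad (θ i) U q) →
        q ∉ Bad (P j) (if s then 1 else -1) := by
    rw [ae_all_iff]; intro j
    rw [ae_all_iff]; intro U
    rw [ae_all_iff]; intro s
    by_cases hP : Few (P j)
    swap
    · exact Filter.Eventually.of_forall fun _ h => absurd h hP
    filter_upwards [ae_den_nat (B := Bad (P j) (if s then 1 else -1)) (fun b => logSparse hP (by cases s <;> simp) b)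
      d θ (fun i => if s then y i else -y i) hθ hsum U] with x hx _
    exact hx
  filter_upwards [key] with x hx j hP U
  obtain ⟨q1, h1⟩ := hx j U true hP
  obtain ⟨q2, h2⟩ := hx j U false hP
  refine ⟨max q1 q2, fun k hk hcl => ?_⟩
  push_cast at hk
  by_contra hcon
  rcases le_total 0 k with h0 | h0
  · obtain ⟨q, rfl⟩ := Int.eq_ofNat_of_zero_le h0
    rw [abs_of_nonneg h0] at hk
    have hq : q1 ≤ q := by
      have := (le_max_left (q1 : ℤ) q2).trans hk
      exact_mod_cast this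
    refine h1 q hq ?_ ?_
    · intro i
      obtain ⟨p, hp⟩ := hcl i
      refine ⟨p, ?_⟩
      rw [Int.cast_natCast, abs_of_nonneg (show (0 : ℝ) ≤ (q : ℝ) from Nat.cast_nonneg q)] at hp
      exact hp
    · show ¬ P j ((if true then 1 else -1) * (q : ℤ))
      simpa using hcon
  · obtain ⟨q, hq⟩ := Int.eq_ofNat_of_zero_le (neg_nonneg.2 h0)
    have hkq : k = -(q : ℤ) := by omega
    subst hkq
    rw [abs_neg, abs_of_nonneg (by positivity)] at hk
    have hq : q2 ≤ q := by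
      have := (le_max_right (q1 : ℤ) q2).trans hk
      exact_mod_cast this
    refine h2 q hq ?_ ?_
    · intro i
      obtain ⟨p, hp⟩ := hcl i
      refine ⟨-p, ?_⟩
      push_cast at hp ⊢
      rw [abs_neg (q : ℝ), abs_of_nonneg (show (0 : ℝ) ≤ (q : ℝ) from Nat.cast_nonneg q)] at hp
      rw [← abs_neg]
      refine le_trans (le_of_eq ?_) hp
      congr 1
      ring
    · show ¬ P j ((if false then 1 else -1) * (q : ℤ))
      simpa using hcon

end Pool.Agent.X99.LP
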